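import Pool.Agent.KS6_77.PCp.Main

set_option autoImplicit false

namespace Pool.Agent.Results.MP_acff2a_gt.AllPowers

open Set Topology TopologicalSpace Cardinal

/-- `C_p(X)`: continuous real functions with the topology of pointwise convergence -/
abbrev Cp (X : Type) [TopologicalSpace X] : Type := {f : X → ℝ // Continuous f}

/-- `p(Z) = ω`: every point-finite family of nonempty open sets is countable -/
def PFCountable (Z : Type) [TopologicalSpace Z] : Prop :=
  ∀ 𝒰 : Set (Set Z), (∀ U ∈ 𝒰, IsOpen U ∧ U.Nonempty) →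
    (∀ z, {U | U ∈ 𝒰 ∧ z ∈ U}.Finite) → 𝒰.Countable

/-- **In ZFC there is a first countable, zero-dimensional compact space `X` of weight `𝔠`, mapped
exactly two-to-one onto the Cantor set, such that `p(C_p(X)^ι) = ω` for every index set `ι`.** -/
theorem result :
    ∃ (X : Type) (_ : TopologicalSpace X), CompactSpace X ∧ T2Space X ∧
      TotallyDisconnectedSpace X ∧ FirstCountableTopology X ∧ ¬ MetrizableSpace X ∧
      (∃ f : X → (ℕ → Bool), Continuous f ∧ ∀ t, (f ⁻¹' {t}).ncard = 2) ∧
      (∀ B : Set (Set X), IsTopologicalBasis B → continuum ≤ #B) ∧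
      PFCountable (Cp X) ∧ ∀ ι : Type, PFCountable (ι → Cp X) := by
  obtain ⟨X, tX, h1, h2, h3, h4, h5, h6, h7⟩ := Pool.Agent.KS6_77.PCp.main
  refine ⟨X, tX, h1, h2, h3, h4, fun hm => ?_, h5, h6, fun 𝒰 hU1 hU2 => ?_, fun ι 𝒰 => h7 ι 𝒰⟩
  · have : SecondCountableTopology X := by
      let _ := metrizableSpaceMetric X
      infer_instance
    have h := h6 (countableBasis X) (isBasis_countableBasis X)
    exact absurd (h.trans (countable_countableBasis X).le_aleph0) (not_le.2 aleph0_lt_continuum)
  · let Φ : (Unit → Cp X) → Cp X := fun g => g ()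
    have hΦ : Function.Surjective Φ := fun f => ⟨fun _ => f, rfl⟩
    have hc : ((fun U => Φ ⁻¹' U) '' 𝒰).Countable := by
      refine h7 Unit _ ?_ ?_
      · rintro _ ⟨U, hU, rfl⟩
        exact ⟨(hU1 U hU).1.preimage (continuous_apply ()), (hU1 U hU).2.preimage hΦ⟩
      · intro f
        refine ((hU2 (Φ f)).image (fun U => Φ ⁻¹' U)).subset ?_
        rintro _ ⟨⟨U, hU, rfl⟩, hf⟩
        exact ⟨U, ⟨hU, hf⟩, rfl⟩
    exact countable_of_injective_of_countable_image (fun U _ V _ e => hΦ.preimage_injective e) hc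

end Pool.Agent.Results.MP_acff2a_gt.AllPowers
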